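import Pool.Agent.V2450.Deligne.ModSuper

/-!
# Abelian varieties which are modular over a totally real field with a supersolvable group

Let `B` be an abelian variety over `ℚ` which is isogenous to a product of modular abelian varieties
`A_f` (of newforms of weight `2`), for instance an elliptic curve over `ℚ`, and let `A` be an abelian
variety over `ℚ` with `h¹(A) ⊗ k = h¹(B) ⊗ ρ` where `ρ` is a representation over `k`, the algebraic
closure of `ℚ`, of `G = Gal(R/ℚ)`; `R` is the union of all totally real number fields. (So `A` and `B^n`
are isogenous over a totally real number field. If `K` is a totally real number field, then the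
restriction of scalars of `B` from `K` to `ℚ` is an example: `ρ` is `Ind 1`.)

* `Sides`: there is only one index `i` (the point `m = 1`, the character `ε = 1`). `(D i).crit V ρ` says
  that `(V, ρ)` is a representation of `G` over `k` with an open kernel which over some totally real
  number field with a supersolvable Galois group over `ℚ` is a direct sum of characters; `(D i).L V ρ` and
  `(D i).c V ρ` are the value `L(M, 1)` and the period `c^+(M(1))` for `M = h¹(B) ⊗ ρ`. They are
  elements of `k ⊗ ℂ`, which we consider as families of complex numbers indexed by the embeddings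
  `σ : k → ℂ` (`Emb k`); `e ∈ k` gives the family `(σ e)`.
* `Conj`: Deligne's conjecture `L = e * c`, `e ∈ k`.
* `Basic`: representations are semisimple; `L` is multiplicative in direct sums, and `c` is, up to
  factors in `kˣ`; `c` is invertible.
* `IsModular`: `basic`; `dirichlet`: Deligne's conjecture is true for the twists of `h¹(B)` with
  Dirichlet characters (Shimura); `shimura`: for every totally real number field `K`, the field of the
  subgroup `H` of `G`, there is a number `u` such that for all `ρ = Ind χ`, `χ` a character of `K` of
  finite order, `L` is an element of `k` times `u` times `c` (Shimura's theorem for the Hilbert modular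
  forms `f_K` and Deligne's formula for the period of `M ⊗ ρ`).
* `IndFrom H ρ`: `ρ` is induced from a character of `H`.
* `SomeValue D N`, `N = G_L`: for all fields `K ⊆ L`, `K ≠ ℚ`, there is a reducible `ρ` with
  `IndFrom G_K ρ`, which is over `L` a direct sum of characters, and with a value which is not zero. If
  `L` is abelian over `ℚ` this is true (take `ρ = Ind (ψ|K)`, where `ψ` is an even Dirichlet character of
  prime power conductor; Rohrlich).
* `Supersolvable Q`: the group `Q` has a chain of normal subgroups with cyclic quotients.
* `Ab ρ N`: the subgroup `N` acts through an abelian quotient, that is `ρ` is over `L` a direct sum of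
  characters. For instance, the groups of `A` and of `L` may be `A₄` and `C₃`.
* `tw ρ ψ`: the twist of `ρ` with a character `ψ`. `conjChar σ ψ = σ ∘ ψ`. `valField ψ = ℚ(ψ)`.
* `IsTwisted D V ρ X Λ`: this is applied to the set `X` of the characters `ψ : G → kˣ` which factor
  through `Gal(F/ℚ)` for an abelian totally real field `F` which is tamely ramified, and to
  `Λ (σ ψ) = 𝓛_C(A, σ ψ)`; `F` is fixed. Deligne's formula
  `c^+(h¹(A)(1) ⊗ [ψ]) = Ω_A^+ τ^*(ψ̌)^{-d}` up to `kˣ` and the formula for the Euler factors
  (the factors `P_ℓ(A, ψ, ℓ⁻¹)` at the `ℓ ∣ 𝔣`) show that `Λ (σ ψ) c_σ = σ(u) L_σ` for some `u ∈ k`.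
-/

set_option autoImplicit false

namespace Pool.Agent.Results.MP_21281f_nt.FormsOfModularAbelianVarieties

open Pool.Agent.V2450.Deligne

/-- Let `L` be a totally real number field, Galois over `ℚ` with a supersolvable group `G ⧸ N`. If `ρ` is
over `L` a direct sum of characters, then (i) and (ii) are true for `A` and all the characters `ψ`. -/
theorem result (k G : Type) [Field k] [CharZero k] [IsAlgClosed k] [Algebra.IsAlgebraic ℚ k]
    [Group G] (ι : Type) (D : ι → Sides k G (Emb k)) (hD : IsModular D)
    (N : Subgroup G) [N.Normal] (hQ : Supersolvable (G ⧸ N)) (hne : SomeValue D N) (i : ι) (V : Type) [AddCommGroup V] [Module k V]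
    (hV : Nontrivial V) (ρ : Representation k G V) (X : Set (G →* kˣ)) (Λ : (G →* ℂˣ) → ℂ)
    (h : IsTwisted (D i) V ρ X Λ) (hab : Ab ρ N) :
    ∀ ψ ∈ X, ∀ σ : k →+* ℂ, Λ (conjChar σ ψ) ∈ valField (conjChar σ ψ) ∧
      ∀ g : ℂ →+* ℂ, g (Λ (conjChar σ ψ)) = Λ (conjChar g (conjChar σ ψ)) :=
  twists' (hD.basic i) h fun ψ hψ =>
    (conj_modular_super hD N hQ hne i V (tw ρ ψ) (h.crit ψ hψ) hV (ab_tw hab ψ)).2

end Pool.Agent.Results.MP_21281f_nt.FormsOfModularAbelianVarieties
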