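import Pool.Agent.V2450.Deligne.Twist

/-!
# Twists of abelian varieties with potential complex multiplication

Let `A` be an abelian variety over `ℚ` of dimension `d` with potential complex multiplication, and let
`L` be a Galois extension of `ℚ` over which all the endomorphisms of `A` are defined.

Let `k` be an algebraic closure of `ℚ`, let `G = T(k)` be the group of the `k`-points of the Taniyama
group: the motives over `ℚ` (for absolute Hodge cycles) with coefficients in `k` which are potentially
of CM type are the algebraic representations of `G` on finite dimensional `k`-spaces. Let `ρ` be the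
representation of `h¹(A)` and `N` the inverse image of `Gal(ℚ̄/L)` in `G`, so that `G ⧸ N = Gal(L/ℚ)`. By
the choice of `L` the group `N` acts through an abelian quotient: `Ab ρ N`.

* `Sides`: `D.crit V ρ` says that `(V, ρ)` is such a motive `M` (with coefficients in `k`) and that `1` is
  a critical point; `D.L V ρ` and `D.c V ρ` are the value `L(M, 1)` and the period `c^+(M(1))`. They are
  elements of `k ⊗ ℂ`, which we consider as families of complex numbers indexed by the embeddings
  `σ : k → ℂ` (`Emb k`); `e ∈ k` gives the family `(σ e)`.
* `Conj`: Deligne's conjecture `D.L V ρ = e * D.c V ρ`, `e ∈ k`.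
* `IsKnown D`: the facts which are known: the motives are semisimple; summands of critical motives are
  critical; `L` is multiplicative in direct sums, and `c` is, up to factors in `kˣ`; isomorphic motives
  have the same `L` and `c` (up to `kˣ`); `c` is invertible; and (`hecke`) Deligne's conjecture is true
  for the motives `Ind χ`, that is for the critical values of the `L`-functions of algebraic Hecke
  characters `χ` of number fields `K` (Siegel and Klingen if `K` is totally real, Blasius if `K` is a CM
  field, in general Harder and Schappacher, Kings and Sprang, Kufner).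
* `tw ρ ψ`: the twist of `ρ` with a character `ψ`. `conjChar σ ψ = σ ∘ ψ`. `valField ψ = ℚ(ψ)`.
* `IsTwisted D V ρ X Λ`: this is applied to the set `X` of the characters `ψ : G → kˣ` which factor
  through `Gal(F/ℚ)` for an abelian totally real field `F` which is tamely ramified, and to
  `Λ (σ ψ) = 𝓛_C(A, σ ψ)`; `F` is fixed. The twists are critical since `F` is totally real; Deligne's
  formula `c^+(h¹(A)(1) ⊗ [ψ]) = Ω_A^+ τ^*(ψ̌)^{-d}` up to `kˣ` and the formula for the Euler factors
  (the factors `P_ℓ(A, ψ, ℓ⁻¹)` at the `ℓ ∣ 𝔣`) show that `Λ (σ ψ) c_σ = σ(u) L_σ` for some `u ∈ k`.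
* `Supersolvable Q`: the group `Q` has a chain of normal subgroups with cyclic quotients.
* `IsInduced N ρ`: `ρ` is induced from a character of a subgroup `H ⊇ N` of finite index.
* `Brauer D N V ρ`: `ρ ⊕ ρ' ≅ σ` where the critical `σ` and `ρ'` are direct sums of representations which
  are induced as in `IsInduced N`. By Brauer's theorem this is true if `N` is normal and of finite
  index and acts through an abelian quotient.
-/

set_option autoImplicit false

namespace Pool.Agent.Results.MP_21281f_nt.PotentialComplexMultiplication

open Pool.Agent.V2450.Deligne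

/-- (1) If the Galois group of `L` over `ℚ` is supersolvable, then (i) and (ii) are true for `A` and all
the characters `ψ`. (2) For an arbitrary `L` this is true if the `L`-values (at the point `1`) of the
critical motives which are induced from algebraic Hecke characters of subfields of `L` are not
zero. -/
theorem result (k G : Type) [Field k] [CharZero k] [IsAlgClosed k] [Algebra.IsAlgebraic ℚ k]
    [Group G] (D : Sides k G (Emb k)) (hD : IsKnown D) (V : Type) [AddCommGroup V] [Module k V]
    (hV : Nontrivial V) (ρ : Representation k G V) (X : Set (G →* kˣ)) (Λ : (G →* ℂˣ) → ℂ)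
    (h : IsTwisted D V ρ X Λ) :
    (∀ (N : Subgroup G) [N.Normal], Supersolvable (G ⧸ N) → Ab ρ N →
      ∀ ψ ∈ X, ∀ σ : k →+* ℂ, Λ (conjChar σ ψ) ∈ valField (conjChar σ ψ) ∧
        ∀ g : ℂ →+* ℂ, g (Λ (conjChar σ ψ)) = Λ (conjChar g (conjChar σ ψ))) ∧
    (∀ N : Subgroup G,
      (∀ (W : Type) [AddCommGroup W] [Module k W] (τ : Representation k G W), D.crit W τ →
        IsInduced N τ → D.L W τ ≠ 0) → (∀ ψ ∈ X, Brauer D N V (tw ρ ψ)) →
      ∀ ψ ∈ X, ∀ σ : k →+* ℂ, Λ (conjChar σ ψ) ∈ valField (conjChar σ ψ) ∧
        ∀ g : ℂ →+* ℂ, g (Λ (conjChar σ ψ)) = Λ (conjChar g (conjChar σ ψ))) := by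
  refine ⟨?_, ?_⟩
  · intro N _ hQ hab
    refine twists hD h fun ψ hψ => ?_
    exact conj_of_sumInd hD
      (sumInd hD N hQ _ V (tw ρ ψ) (h.crit ψ hψ) hV (ab_tw hab ψ) rfl) (h.crit ψ hψ)
  · intro N hne hB
    refine twists hD h fun ψ hψ => ?_
    obtain ⟨e, _, he⟩ := conj_of_brauer hD hne (hB ψ hψ)
    exact ⟨e, he⟩

end Pool.Agent.Results.MP_21281f_nt.PotentialComplexMultiplication
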