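import Pool.Agent.V11288.LZ.Par

/-!
# Deligne's conjecture for the twists of an abelian variety as rationality of limits of sums over primes

Let `A` be an abelian variety over `ℚ` of dimension `d`, `F` the field, `G = Gal(F/ℚ)`, `f` its conductor, and
`α_{ℓ,j}` the numbers with `P_ℓ(A, t) = ∏_j (1 - α_{ℓ,j} t)` for the primes `ℓ ∤ f` (`|α_{ℓ,j}| ≤ ℓ^{1/2}`).  For a
character `ψ` of `G` the problem asks about

`𝓛_C(A, ψ) = τ^*(ψ⁻¹)^d L_C(A, ψ, 1)/Ω_A^+`,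
`L_C(A, ψ, z) = ∏_{ℓ ∤ f} ∏_j (1 - ψ(ℓ) α_{ℓ,j} ℓ^{-z})⁻¹`  (`Re z > 3/2`),

where `τ^*` is the Gauss sum: (i) `𝓛_C(A, ψ) ∈ ℚ(ψ)` and (ii) `g(𝓛_C(A, ψ)) = 𝓛_C(A, g∘ψ)`.  By Galois descent (i)
and (ii) hold for all characters `ψ` of `G` if and only if there is an element `y = ∑_g y_g g ∈ ℚ[G]` with
`𝓛_C(A, ψ) = ψ(y)` for all `ψ`.

Let `γ > π/2`, and for `X > 1`, with `u = k log ℓ / log X`,

`W_ψ(X) = ∑_{ℓ ∤ f} ∑_{k ≥ 1} ψ(ℓ)^k (∑_j α_{ℓ,j}^k) / (k ℓ^k) · e^{iγu} / Γ(1 + u)`,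
`E_g(X) = |G|⁻¹ ∑_ψ ψ(g)⁻¹ τ^*(ψ⁻¹)^d exp W_ψ(X) / Ω_A^+`  for `g ∈ G`.

1. `E_g(X) = e_g + O(1/log X)` for `X → ∞`, where `𝓛_C(A, ψ) = ∑_g ψ(g) e_g` for all `ψ`;

2. there is `y ∈ ℚ[G]` with `𝓛_C(A, ψ) = ψ(y)` for all `ψ` (that is, (i) and (ii) hold for all characters of
   `G`) if and only if for all `g ∈ G` the limit `lim_{X → ∞} E_g(X)` is a rational number.

So Q1 for `(A, F)` is the rationality of finitely many limits of explicit sums over the primes; no hypothesis on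
the zeros of the `L`-functions is used, and of the analytic continuation only the meromorphic continuation to the
points of the real interval `[1, 3/2]`, holomorphic at `1`.

Proof.  `Pool.Agent.V11288.LZ` (the value at the central point as a limit, with a rate) and duality for finite
abelian groups.
-/

set_option autoImplicit false

namespace Pool.Agent.Results.MP_21281f_nt.RationalLimits

open Filter Topology Set NumberField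

/-- The residue class of the prime `ℓ ∤ f`. -/
noncomputable def cl (f : ℕ) (p : {p : Nat.Primes // ¬ (p : ℕ) ∣ f}) : (ZMod f)ˣ :=
  ZMod.unitOfCoprime (p.1 : ℕ) ((Nat.Prime.coprime_iff_not_dvd p.1.2).2 p.2)

section group

variable {f n : ℕ} {G : Type} [Group G]

/-- `L ψ = L_C(A, ψ, z)` for all characters `ψ` of `G`, where `art a` is the restriction of `σ_a` to `F`: it is
the Euler product for `Re z > 3/2`, is meromorphic at the points of the real interval `[1, 3/2]` and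
holomorphic at `1`. -/
structure IsLFunction (art : (ZMod f)ˣ →* G) (α : {p : Nat.Primes // ¬ (p : ℕ) ∣ f} → Fin n → ℂ)
    (L : (G →* ℂˣ) → ℂ → ℂ) : Prop where
  mero : ∀ ψ, ∀ x ∈ Icc (1 : ℝ) (3 / 2), MeromorphicAt (L ψ) (x : ℂ)
  holo : ∀ ψ, AnalyticAt ℂ (L ψ) 1
  prod : ∀ ψ, ∀ s : ℂ, 3 / 2 < s.re → L ψ s = ∏' p : {p : Nat.Primes // ¬ (p : ℕ) ∣ f},
    ∏ j, (1 - ((ψ (art (cl f p)) : ℂˣ) : ℂ) * α p j * ((p.1 : ℕ) : ℂ) ^ (-s))⁻¹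

/-- The Gauss sum `τ^*(ψ⁻¹)`. -/
noncomputable def gauss [NeZero f] (art : (ZMod f)ˣ →* G) (ψ : G →* ℂˣ) : ℂ :=
  ∑ a : (ZMod f)ˣ, ((ψ (art a)⁻¹ : ℂˣ) : ℂ) *
    Complex.exp (2 * Real.pi * Complex.I * (((a : ZMod f).val : ℕ) : ℂ) / f)

/-- The term of `W_ψ(X)` at `(ℓ, k)`. -/
noncomputable def term (art : (ZMod f)ˣ →* G) (α : {p : Nat.Primes // ¬ (p : ℕ) ∣ f} → Fin n → ℂ)
    (ψ : G →* ℂˣ) (γ X : ℝ) (p : {p : Nat.Primes // ¬ (p : ℕ) ∣ f}) (k : ℕ) : ℂ :=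
  ((ψ (art (cl f p)) : ℂˣ) : ℂ) ^ k * (∑ j, α p j ^ k) / (k * ((p.1 : ℕ) : ℂ) ^ k) *
    (Complex.exp ((γ * (k * Real.log (p.1 : ℕ) / Real.log X) : ℝ) * Complex.I) /
      (Real.Gamma (1 + k * Real.log (p.1 : ℕ) / Real.log X) : ℂ))

/-- `W_ψ(X)`, the sum over `ℓ ∤ f` and `k ≥ 1` (here `k = x.2 + 1`). -/
noncomputable def W (art : (ZMod f)ˣ →* G) (α : {p : Nat.Primes // ¬ (p : ℕ) ∣ f} → Fin n → ℂ)
    (ψ : G →* ℂˣ) (γ X : ℝ) : ℂ :=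
  ∑' x : {p : Nat.Primes // ¬ (p : ℕ) ∣ f} × ℕ, term art α ψ γ X x.1 (x.2 + 1)

/-- `E_g(X) = |G|⁻¹ ∑_ψ ψ(g)⁻¹ τ^*(ψ⁻¹)^d exp W_ψ(X) / Ω`. -/
noncomputable def E [NeZero f] (art : (ZMod f)ˣ →* G)
    (α : {p : Nat.Primes // ¬ (p : ℕ) ∣ f} → Fin n → ℂ) (d : ℕ) (Ω : ℝ) (γ : ℝ) (g : G) (X : ℝ) : ℂ :=
  (∑ᶠ ψ : G →* ℂˣ, ((ψ g⁻¹ : ℂˣ) : ℂ) * (gauss art ψ ^ d * Complex.exp (W art α ψ γ X) / Ω)) /
    Nat.card G

/-- `𝓛_C(A, ψ) = ψ(y) = ∑_g ψ(g) y_g` for all characters `ψ` of `G`. -/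
def IsValue [NeZero f] [Fintype G] (art : (ZMod f)ˣ →* G) (d : ℕ) (Ω : ℝ) (L : (G →* ℂˣ) → ℂ → ℂ)
    (y : G → ℂ) : Prop :=
  ∀ ψ : G →* ℂˣ, gauss art ψ ^ d * L ψ 1 / Ω = ∑ g, ((ψ g : ℂˣ) : ℂ) * y g

end group

open Pool.Agent.V11288.LZ

section proof

variable {f n : ℕ} {G : Type} [CommGroup G] {art : (ZMod f)ˣ →* G}
  {α : {p : Nat.Primes // ¬ (p : ℕ) ∣ f} → Fin n → ℂ}

/-- the matrices -/
noncomputable def mat (art : (ZMod f)ˣ →* G) (α : {p : Nat.Primes // ¬ (p : ℕ) ∣ f} → Fin n → ℂ)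
    (ψ : G →* ℂˣ) (p : {p : Nat.Primes | ¬ (p : ℕ) ∣ f}) : Matrix (Fin n) (Fin n) ℂ :=
  Matrix.diagonal fun j => ((ψ (art (cl f p)) : ℂˣ) : ℂ) * α p j

theorem eul [Finite G] (hα : ∀ p j, ‖α p j‖ ≤ ((p.1 : ℕ) : ℝ) ^ (1 / 2 : ℝ)) (ψ : G →* ℂˣ) :
    Eul 1 (1 / 2) (fun p : {p : Nat.Primes | ¬ (p : ℕ) ∣ f} => ((p.1 : ℕ) : ℝ)) (mat art α ψ) := by
  refine eul_q fun p z hz => ?_
  obtain ⟨j, rfl⟩ := mem_roots_diagonal hz
  rw [norm_mul, norm_char, one_mul]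
  exact hα p j

theorem W_eq (ψ : G →* ℂˣ) (γ X : ℝ) :
    tot (fun p : {p : Nat.Primes | ¬ (p : ℕ) ∣ f} => ((p.1 : ℕ) : ℝ)) (mat art α ψ) 1 γ X =
      W art α ψ γ X := by
  refine tsum_congr fun x => ?_
  unfold tm term wt mat
  rw [trace_diagonal_pow, Real.rpow_one]
  simp only [mul_pow, ← Finset.mul_sum]
  push_cast
  rfl

theorem prod_eq (ψ : G →* ℂˣ) (s : ℂ) :
    ∏' p : {p : Nat.Primes | ¬ (p : ℕ) ∣ f}, ((1 - (((p.1 : ℕ) : ℝ) : ℂ) ^ (-s) • mat art α ψ p).det)⁻¹ =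
    ∏' p : {p : Nat.Primes // ¬ (p : ℕ) ∣ f},
      ∏ j, (1 - ((ψ (art (cl f p)) : ℂˣ) : ℂ) * α p j * ((p.1 : ℕ) : ℂ) ^ (-s))⁻¹ := by
  refine tprod_congr fun p => ?_
  unfold mat
  rw [det_diagonal_sub, ← Finset.prod_inv_distrib]
  push_cast
  rfl

theorem main [NeZero f] [Fintype G] (hα : ∀ p j, ‖α p j‖ ≤ ((p.1 : ℕ) : ℝ) ^ (1 / 2 : ℝ))
    (L : (G →* ℂˣ) → ℂ → ℂ) (hL : IsLFunction art α L) (d : ℕ) (Ω : ℝ) (γ : ℝ)
    (hγ : Real.pi / 2 < γ) :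
    (∃ e : G → ℂ, IsValue art d Ω L e ∧ ∀ g, (fun X : ℝ => E art α d Ω γ g X - e g) =O[atTop]
      (fun X : ℝ => 1 / Real.log X)) ∧
    ((∃ y : G → ℚ, IsValue art d Ω L fun g => (y g : ℂ)) ↔
      ∀ g, ∃ y : ℚ, Tendsto (E art α d Ω γ g) atTop (𝓝 (y : ℂ))) := by
  have : Fintype (G →* ℂˣ) := Fintype.ofFinite _
  have hev : ∀ (χ : G →* ℂˣ) (a : G → ℂ), ∑ g, ((χ g : ℂˣ) : ℂ) * a g = dft a χ := by
    intro χ a
    unfold dft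
    rw [finsum_eq_sum_of_fintype]
  have hrate0 : ∀ ψ : G →* ℂˣ, (fun X : ℝ => Complex.exp (W art α ψ γ X) - L ψ 1) =O[atTop]
      (fun X : ℝ => 1 / Real.log X) := by
    intro ψ
    have h1 := (eul (art := art) hα ψ).rate 1 (L := L ψ)
      (fun x hx => hL.mero ψ x ⟨hx.1, by linarith [hx.2]⟩) (by simpa using hL.holo ψ)
      (fun s hs => by rw [prod_eq, hL.prod ψ s (by linarith)]) hγ
    simp only [W_eq, Complex.ofReal_one] at h1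
    exact h1
  set b : (G →* ℂˣ) → ℂ := fun ψ => gauss art ψ ^ d * L ψ 1 / Ω with hb
  set e : G → ℂ := dftinv b with he
  have hval : IsValue art d Ω L e := by
    intro ψ
    rw [hev, he, dft_dftinv]
  have hrate : ∀ g, (fun X : ℝ => E art α d Ω γ g X - e g) =O[atTop] (fun X : ℝ => 1 / Real.log X) := by
    intro g
    have h1 : ∀ X : ℝ, E art α d Ω γ g X - e g = ∑ ψ : G →* ℂˣ,
        (((ψ g⁻¹ : ℂˣ) : ℂ) * gauss art ψ ^ d / Ω / Nat.card G) *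
          (Complex.exp (W art α ψ γ X) - L ψ 1) := by
      intro X
      rw [he]
      simp only [E, dftinv, finsum_eq_sum_of_fintype]
      simp only [Finset.sum_div]
      rw [← Finset.sum_sub_distrib]
      refine Finset.sum_congr rfl fun χ _ => ?_
      rw [hb]
      ring
    refine Asymptotics.IsBigO.congr_left ?_ fun X => (h1 X).symm
    refine Asymptotics.IsBigO.fun_sum fun χ _ => ?_
    exact (hrate0 χ).const_mul_left _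
  have hlim : ∀ g, Tendsto (E art α d Ω γ g) atTop (𝓝 (e g)) := by
    intro g
    have h1 := (hrate g).trans_tendsto (tendsto_const_nhds.div_atTop Real.tendsto_log_atTop)
    simpa using h1.add_const (e g)
  refine ⟨⟨e, hval, hrate⟩, fun h g => ?_, fun h => ?_⟩
  · obtain ⟨y, hy⟩ := h
    have h1 : (fun g => (y g : ℂ)) = e := by
      rw [he, ← dftinv_dft (fun g => (y g : ℂ))]
      congr 1
      funext ψ
      rw [← hev, hb]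
      exact (hy ψ).symm
    refine ⟨y g, ?_⟩
    rw [show (y g : ℂ) = e g from congrFun h1 g]
    exact hlim g
  · choose y hy using h
    refine ⟨y, ?_⟩
    have h1 : (fun g => (y g : ℂ)) = e := funext fun g => tendsto_nhds_unique (hy g) (hlim g)
    rw [h1]
    exact hval

end proof

variable {F : Type} [Field F] [NumberField F]

/-- The commutative group structure of `Gal(F/ℚ)`. -/
@[reducible] noncomputable def cgr (F : Type) [Field F] [NumberField F] [IsAbelianGalois ℚ F] :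
    CommGroup (F ≃ₐ[ℚ] F) :=
  { (inferInstance : Group (F ≃ₐ[ℚ] F)) with mul_comm := fun a b => mul_comm' a b }

/-- `art` is Artin's map `(ℤ/f)^* → Gal(F/ℚ)`: it sends the class of a prime `ℓ ∤ f` to the Frobenius
automorphism, `art(ℓ)(x) ≡ x^ℓ` modulo a prime above `ℓ`. -/
def IsArtin (f : ℕ) (art : (ZMod f)ˣ →* (F ≃ₐ[ℚ] F)) : Prop :=
  ∀ p : {p : Nat.Primes // ¬ (p : ℕ) ∣ f}, ∃ Q : Ideal (𝓞 F), Q.IsPrime ∧ ((p.1 : ℕ) : 𝓞 F) ∈ Q ∧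
    ∀ x y : 𝓞 F, (y : F) = art (cl f p) (x : F) → y - x ^ (p.1 : ℕ) ∈ Q

/-- **Deligne's conjecture for twists as rationality of limits.** -/
theorem result [IsAbelianGalois ℚ F] {f n : ℕ} [NeZero f] (art : (ZMod f)ˣ →* (F ≃ₐ[ℚ] F))
    (_ : IsArtin f art) (α : {p : Nat.Primes // ¬ (p : ℕ) ∣ f} → Fin n → ℂ)
    (hα : ∀ p j, ‖α p j‖ ≤ ((p.1 : ℕ) : ℝ) ^ (1 / 2 : ℝ)) (L : ((F ≃ₐ[ℚ] F) →* ℂˣ) → ℂ → ℂ)
    (hL : IsLFunction art α L) (d : ℕ) (Ω : ℝ) (γ : ℝ) (hγ : Real.pi / 2 < γ) :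
    (∃ e : (F ≃ₐ[ℚ] F) → ℂ, IsValue art d Ω L e ∧
      ∀ g, (fun X : ℝ => E art α d Ω γ g X - e g) =O[atTop] (fun X : ℝ => 1 / Real.log X)) ∧
    ((∃ y : (F ≃ₐ[ℚ] F) → ℚ, IsValue art d Ω L fun g => (y g : ℂ)) ↔
      ∀ g, ∃ y : ℚ, Tendsto (E art α d Ω γ g) atTop (𝓝 (y : ℂ))) :=
  @main f n (F ≃ₐ[ℚ] F) (cgr F) art α _ _ hα L hL d Ω γ hγ

end Pool.Agent.Results.MP_21281f_nt.RationalLimits
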